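import Pool.Agent.TH289.Closing

set_option autoImplicit false
set_option linter.unusedSectionVars false

open Filter Topology Set Metric

namespace Pool.Agent.TH289

open Pool.Agent.H721R2 Pool.Agent.H789R2.AN Pool.Agent.H789R2.GP

variable {X : Type*} [MetricSpace X] [CompactSpace X]

/-- one step of a pseudo-orbit in `A` -/
def Ch (f : X → X) (A : Set X) (δ : ℝ) (x y : X) : Prop := x ∈ A ∧ y ∈ A ∧ dist (f x) y ≤ δ

/-- one step of a pair of pseudo-orbits in `A` with the same image under `h` -/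
def Ch2 {Y : Type*} (f : X → X) (A : Set X) (h : X → Y) (δ : ℝ) (x y : X × X) : Prop :=
  Ch f A δ x.1 y.1 ∧ Ch f A δ x.2 y.2 ∧ h x.1 = h x.2 ∧ h y.1 = h y.2

theorem att_iter {f : X ≃ₜ X} {A : Set X} (hA : IsAtt f A) {N : ℕ} (hN : 1 ≤ N) :
    IsAtt (iterHomeo f N) A where
  closed := hA.closed
  nonempty := hA.nonempty
  inv := fun x => inv_iter hA.inv N x
  sat := fun x hx y hxy => hA.sat x hx y (by
    rw [iterHomeo_symm] at hxy
    exact (WS_iter_iff f.symm hN x y).mp hxy)

/-- Saturated sets have saturated closures. -/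
theorem closure_sat' {f : X ≃ₜ X} {N : ℕ} (hN : 1 ≤ N) {c : ℝ} (h : LP (iterHomeo f N) c)
    {S : Set X} (hS : ∀ x ∈ S, ∀ y, WS f.symm x y → y ∈ S) :
    ∀ x ∈ closure S, ∀ y, WS f.symm x y → y ∈ closure S := by
  intro x hx y hxy
  refine closure_sat h (S := S) ?_ x hx y ?_
  · intro x hx y hxy
    rw [iterHomeo_symm] at hxy
    exact hS x hx y ((WS_iter_iff f.symm hN x y).mp hxy)
  · rw [iterHomeo_symm]
    exact (WS_iter_iff f.symm hN x y).mpr hxy

/-- closing of recurrent pairs -/
theorem closing {E : Type*} [NormedAddCommGroup E] [NormedSpace ℝ E]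
    (S : HypSys X E) {f : X ≃ₜ X} {N : ℕ} (hN : 1 ≤ N) (hS : S.g = iterHomeo f N)
    {A : Set X} (hA : IsAtt f A) {Y : Type*} [MetricSpace Y]
    {g : Y ≃ₜ Y} {c' : ℝ} (hLP : LP (iterHomeo g N) c')
    {h : X → Y} (hc : Continuous h) (hh : ∀ x, h (f x) = g (h x))
    (H : ∀ p ∈ A, ∀ q ∈ A, p ∈ Function.periodicPts f → q ∈ Function.periodicPts f →
      h p = h q → p = q)
    {a b : X} (hab : ∀ δ > 0, Relation.TransGen (Ch2 f A h δ) (a, b) (a, b)) : a = b := by
  obtain ⟨c, hLPf⟩ := exists_LP S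
  have hA' : IsAtt S.g A := by rw [hS]; exact att_iter hA hN
  obtain ⟨r, hr, hnear⟩ := hLPf.near
  have hhN : ∀ (k : ℕ) (x : X), h (S.g^[k] x) = (iterHomeo g N)^[k] (h x) := by
    intro k x
    rw [hS, iterHomeo_iter, iterHomeo_iter]
    exact (Function.Semiconj.iterate_right (f := h) (ga := f) (gb := g) hh _) x
  have hh' : ∀ x, h (f.symm x) = g.symm (h x) := by
    intro x
    apply g.injective
    rw [← hh, f.apply_symm_apply, g.apply_symm_apply]
  have hhN' : ∀ (k : ℕ) (x : X), h (S.g.symm^[k] x) = (iterHomeo g N).symm^[k] (h x) := by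
    intro k x
    rw [hS, iterHomeo_symm_iter, iterHomeo_symm_iter]
    exact (Function.Semiconj.iterate_right (f := h) (ga := f.symm) (gb := g.symm) hh' _) x
  have hu : UniformContinuous h := CompactSpace.uniformContinuous_of_continuous hc
  rw [Metric.uniformContinuous_iff] at hu
  obtain ⟨η, hη, hηh⟩ := hu (c' / 2) (half_pos hLP.c_pos)
  refine dist_le_zero.mp (le_of_forall_pos_le_add fun ε hε => ?_)
  rw [zero_add]
  set ε' := min (ε / 2) (min (η / 2) (r / 2)) with hε'
  have hε'0 : 0 < ε' := lt_min (half_pos hε) (lt_min (half_pos hη) (half_pos hr))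
  obtain ⟨δ₁, hδ₁, hsh⟩ := per_shadow S hε'0
  obtain ⟨δ, hδ, hps⟩ := pseudo_iter f N hδ₁
  obtain ⟨m, hm, w, hw1, hw2, hw3⟩ := loop_of_transGen (hab δ hδ)
  -- shadowing of one coordinate
  have key : ∀ u : ℤ → X, (∀ n, u (n + m) = u n) → (∀ n, Ch f A δ (u n) (u (n + 1))) →
      ∃ p ∈ A, p ∈ Function.periodicPts f ∧ (∀ n : ℕ, dist (S.g^[n] p) (u (N * n)) ≤ ε') ∧
        ∀ n : ℕ, dist (S.g.symm^[n] p) (u (N * -n)) ≤ ε' := by
    intro u hu1 hu2
    have hper : ∀ (k : ℕ) (n : ℤ), u (n + k * m) = u n := by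
      intro k
      induction k with
      | zero => intro n; simp
      | succ k ih =>
        intro n
        have : n + ((k + 1 : ℕ) : ℤ) * m = (n + k * m) + m := by push_cast; ring
        rw [this, hu1, ih]
    have h1 : ∀ n : ℤ, dist (S.g (u (N * n))) (u (N * (n + 1))) ≤ δ₁ := by
      intro n
      have h2 := hps (fun i : ℕ => u (N * n + i)) (fun i => by
        have h3 := (hu2 (N * n + i)).2.2
        push_cast
        rw [← add_assoc]
        exact h3)
      simp only [Nat.cast_zero, add_zero] at h2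
      rw [hS, iterHomeo_apply]
      have h4 : (N : ℤ) * (n + 1) = N * n + N := by ring
      rw [h4]
      exact h2
    obtain ⟨p, hp1, hp2, hp3⟩ := hsh m (fun n => u (N * n)) (fun n => by
      show u (N * (n + m)) = u (N * n)
      have := hper N (N * n)
      rw [← this]
      congr 1
      ring) h1
    refine ⟨p, ?_, ?_, hp2, hp3⟩
    · have hd : dist p (u (N * 0)) < r := by
        have h2 := hp2 0
        simp only [Function.iterate_zero, id_eq, Nat.cast_zero] at h2
        have h3 : ε' ≤ r / 2 := (min_le_right _ _).trans (min_le_right _ _)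
        linarith
      obtain ⟨z, hz, hpz⟩ := hnear A hA' _ (hu2 _).1 p hd
      have h4 := hLPf.cS _ _ hpz
      rw [← hA.closed.closure_eq, Metric.mem_closure_iff]
      intro e he
      have h5 : Tendsto (fun n : ℕ => c * (1 / 2 : ℝ) ^ n) atTop (𝓝 0) := by
        have := (tendsto_pow_atTop_nhds_zero_of_lt_one (by norm_num : (0:ℝ) ≤ 1 / 2)
          (by norm_num)).const_mul c
        simpa using this
      obtain ⟨k, hk⟩ := eventually_atTop.mp ((tendsto_order.mp h5).2 e he)
      refine ⟨S.g^[m * k] z, (inv_iter hA'.inv _ z).mpr hz, ?_⟩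
      have h6 := h4 (m * k)
      have h7 : S.g^[m * k] p = p := by
        rw [Function.iterate_mul]
        exact Function.iterate_fixed hp1 k
      rw [h7] at h6
      exact h6.trans_lt (hk _ (Nat.le_mul_of_pos_left k (by omega)))
    · refine ⟨N * m, Nat.mul_pos (by omega) (by omega), ?_⟩
      have h2 := hp1
      rw [hS, iterHomeo_iter] at h2
      exact h2
  obtain ⟨p, hpA, hpp, hp1, hp2⟩ := key (fun n => (w n).1) (fun n => by simp only [hw1])
    (fun n => (hw3 n).1)
  obtain ⟨q, hqA, hqq, hq1, hq2⟩ := key (fun n => (w n).2) (fun n => by simp only [hw1])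
    (fun n => (hw3 n).2.1)
  have hcl : ∀ (x y z z' : X), dist x z ≤ ε' → dist y z' ≤ ε' → h z = h z' →
      dist (h x) (h y) ≤ c' := by
    intro x y z z' h1 h2 h3
    have h4 : ε' < η := by
      have : ε' ≤ η / 2 := (min_le_right _ _).trans (min_le_left _ _)
      linarith
    have h5 := hηh (h1.trans_lt h4)
    have h6 := hηh (h2.trans_lt h4)
    rw [← h3] at h6
    have h7 := dist_triangle_right (h x) (h y) (h z)
    linarith
  have hpq : h p = h q := by
    apply expansive hLP
    · intro n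
      rw [← hhN, ← hhN]
      exact hcl _ _ _ _ (hp1 n) (hq1 n) (hw3 _).2.2.1
    · intro n
      rw [← hhN', ← hhN']
      exact hcl _ _ _ _ (hp2 n) (hq2 n) (hw3 _).2.2.1
  have hpq' := H p hpA q hqA hpp hqq hpq
  have h1 := hp1 0
  have h2 := hq1 0
  simp only [Function.iterate_zero, id_eq, Nat.cast_zero, mul_zero] at h1 h2
  rw [hw2] at h1 h2
  simp only at h1 h2
  rw [← hpq'] at h2
  have h3 : ε' ≤ ε / 2 := min_le_left _ _
  have h4 := dist_triangle_left a b p
  linarith

/-- The unstable saturation of an omega-limit set has closure an attractor. -/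
theorem att_omega {f : X ≃ₜ X} {N : ℕ} (hN : 1 ≤ N) {c : ℝ} (h : LP (iterHomeo f N) c) (x : X) :
    IsAtt f (closure {w | ∃ y, MapClusterPt y atTop (fun n : ℕ => f^[n] x) ∧ WS f.symm y w}) := by
  set ω : Set X := {y | MapClusterPt y atTop (fun n : ℕ => f^[n] x)} with hω
  have hωne : ω.Nonempty := by
    obtain ⟨y, hy⟩ := exists_clusterPt_of_compactSpace (map (fun n : ℕ => f^[n] x) atTop)
    exact ⟨y, hy⟩
  have hωchar : ∀ y, y ∈ ω ↔ ∀ W ∈ 𝓝 y, ∀ N : ℕ, ∃ n ≥ N, f^[n] x ∈ W := by
    intro y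
    rw [hω, mem_ofPred_eq, mapClusterPt_iff_frequently]
    exact forall₂_congr fun W _ => frequently_atTop
  have hωinv : ∀ y, f y ∈ ω ↔ y ∈ ω := by
    intro y
    rw [hωchar, hωchar]
    constructor
    · intro hy W hW N
      have h1 : f.symm ⁻¹' W ∈ 𝓝 (f y) := by
        apply f.symm.continuous.continuousAt.preimage_mem_nhds
        rwa [f.symm_apply_apply]
      obtain ⟨n, hn, h2⟩ := hy _ h1 (N + 1)
      refine ⟨n - 1, by omega, ?_⟩
      have h3 : f^[n] x = f (f^[n - 1] x) := by
        rw [← Function.iterate_succ_apply' f (n - 1)]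
        congr 1
        omega
      rw [mem_preimage, h3, f.symm_apply_apply] at h2
      exact h2
    · intro hy W hW N
      have h1 : f ⁻¹' W ∈ 𝓝 y := f.continuous.continuousAt.preimage_mem_nhds hW
      obtain ⟨n, hn, h2⟩ := hy _ h1 N
      refine ⟨n + 1, by omega, ?_⟩
      rw [Function.iterate_succ_apply']
      exact h2
  have hSe : {w | ∃ y, MapClusterPt y atTop (fun n : ℕ => f^[n] x) ∧ WS f.symm y w} =
      {w | ∃ y ∈ ω, WS f.symm y w} := rfl
  rw [hSe]
  set S : Set X := {w | ∃ y ∈ ω, WS f.symm y w} with hS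
  have hSsat : ∀ w ∈ S, ∀ w', WS f.symm w w' → w' ∈ S := by
    rintro w ⟨y, hy, hyw⟩ w' hww'
    exact ⟨y, hy, hyw.trans hww'⟩
  have hSinv : ∀ w, f w ∈ S ↔ w ∈ S := by
    intro w
    constructor
    · rintro ⟨y, hy, hyw⟩
      refine ⟨f.symm y, (inv_symm hωinv y).mpr hy, ?_⟩
      have := hyw.mapIter (φ := f.symm) (fun _ => rfl) 1
      simpa using this
    · rintro ⟨y, hy, hyw⟩
      refine ⟨f y, (hωinv y).mpr hy, ?_⟩
      rw [← WS.iter 1]
      simpa using hyw
  refine ⟨isClosed_closure, ?_, ?_, closure_sat' hN h hSsat⟩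
  · obtain ⟨y, hy⟩ := hωne
    exact ⟨y, subset_closure ⟨y, hy, WS.refl _ _⟩⟩
  · intro w
    have e1 : f ⁻¹' S = S := by
      ext w
      exact hSinv w
    have e2 := f.preimage_closure S
    rw [e1] at e2
    rw [← mem_preimage, e2]

theorem ch_orbit {f : X ≃ₜ X} {A : Set X} (hA : ∀ x, f x ∈ A ↔ x ∈ A) {δ : ℝ} (hδ : 0 ≤ δ) {x : X}
    (hx : x ∈ A) (n : ℕ) : Relation.ReflTransGen (Ch f A δ) x (f^[n] x) := by
  induction n with
  | zero => exact Relation.ReflTransGen.refl
  | succ n ih =>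
    refine ih.tail ⟨(inv_iter hA n x).mpr hx, (inv_iter hA (n + 1) x).mpr hx, ?_⟩
    rw [Function.iterate_succ_apply', dist_self]
    exact hδ

/-- A minimal attractor is chain transitive. -/
theorem chain_tr {f : X ≃ₜ X} {N : ℕ} (hN : 1 ≤ N) {c : ℝ} (h : LP (iterHomeo f N) c) {A : Set X}
    (hA : MinAtt f A) {x y : X} (hx : x ∈ A) (hy : y ∈ A) {δ : ℝ} (hδ : 0 < δ) :
    Relation.TransGen (Ch f A δ) x y := by
  have hatt := att_omega hN h x
  set S : Set X := {w | ∃ y, MapClusterPt y atTop (fun n : ℕ => f^[n] x) ∧ WS f.symm y w} with hS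
  have hωA : ∀ z, MapClusterPt z atTop (fun n : ℕ => f^[n] x) → z ∈ A := by
    intro z hz
    rw [← hA.1.closed.closure_eq, mem_closure_iff_nhds]
    intro W hW
    rw [mapClusterPt_iff_frequently] at hz
    obtain ⟨n, hn⟩ := (hz W hW).exists
    exact ⟨_, hn, (inv_iter hA.1.inv n x).mpr hx⟩
  have hSA : S ⊆ A := by
    rintro w ⟨z, hz, hzw⟩
    exact hA.1.sat z (hωA z hz) w hzw
  have hAS : A ⊆ closure S := hA.2 _ hatt (closure_minimal hSA hA.1.closed)
  obtain ⟨w, ⟨z, hz, hzw⟩, hwy⟩ := Metric.mem_closure_iff.mp (hAS hy) δ hδ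
  obtain ⟨m, hm⟩ := hzw.eventually_lt (half_pos hδ)
  have h1 := hm (m + 1) (by omega)
  have hwA : w ∈ A := hSA ⟨z, hz, hzw⟩
  -- a forward iterate of `x` close to `f⁻⁽ᵐ⁺¹⁾ z`
  have h2 : ∃ n : ℕ, 1 ≤ n ∧ dist (f^[n] x) (f.symm^[m + 1] z) < δ / 2 := by
    have hW : f^[m + 1] ⁻¹' ball z 1 ∈ 𝓝 (f.symm^[m + 1] z) := by
      apply (f.continuous.iterate (m + 1)).continuousAt.preimage_mem_nhds
      rw [iterR]
      exact ball_mem_nhds _ one_pos
    have hV : {s | dist (f.symm^[m + 1] s) (f.symm^[m + 1] z) < δ / 2} ∈ 𝓝 z := by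
      have hcont : Continuous fun s => dist (f.symm^[m + 1] s) (f.symm^[m + 1] z) :=
        (f.symm.continuous.iterate (m + 1)).dist continuous_const
      exact (isOpen_lt hcont continuous_const).mem_nhds (by
        show dist (f.symm^[m + 1] z) (f.symm^[m + 1] z) < δ / 2
        rw [dist_self]; linarith)
    rw [mapClusterPt_iff_frequently] at hz
    obtain ⟨k, hk1, hk2⟩ := frequently_atTop.mp (hz _ hV) (m + 2)
    refine ⟨k - (m + 1), by omega, ?_⟩
    have e : f.symm^[m + 1] (f^[k] x) = f^[k - (m + 1)] x := by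
      have : f^[k] x = f^[m + 1] (f^[k - (m + 1)] x) := by
        rw [← Function.iterate_add_apply]
        congr 1
        omega
      rw [this, iterL]
    rw [← e]
    exact hk2
  obtain ⟨n, hn1, hn⟩ := h2
  -- the chain
  have c1 : Relation.ReflTransGen (Ch f A δ) x (f^[n - 1] x) := ch_orbit hA.1.inv hδ.le hx _
  have hwm : f.symm^[m + 1] w ∈ A := (inv_iter (inv_symm hA.1.inv) (m + 1) w).mpr hwA
  have c2 : Ch f A δ (f^[n - 1] x) (f.symm^[m + 1] w) := by
    refine ⟨(inv_iter hA.1.inv _ x).mpr hx, hwm, ?_⟩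
    have e : f (f^[n - 1] x) = f^[n] x := by
      rw [← Function.iterate_succ_apply' f (n - 1)]
      congr 1
      omega
    rw [e]
    have := dist_triangle (f^[n] x) (f.symm^[m + 1] z) (f.symm^[m + 1] w)
    linarith
  have c3 : Relation.ReflTransGen (Ch f A δ) (f.symm^[m + 1] w) (f^[m] (f.symm^[m + 1] w)) :=
    ch_orbit hA.1.inv hδ.le hwm _
  have c4 : Ch f A δ (f^[m] (f.symm^[m + 1] w)) y := by
    refine ⟨(inv_iter hA.1.inv _ _).mpr hwm, hy, ?_⟩
    rw [← Function.iterate_succ_apply' f m, iterR, dist_comm]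
    exact hwy.le
  exact Relation.TransGen.tail' ((c1.tail c2).trans c3) c4

/-- pairs of points of `A` with the same image -/
def PS {Y : Type*} (A : Set X) (h : X → Y) : Set (X × X) := {z | z.1 ∈ A ∧ z.2 ∈ A ∧ h z.1 = h z.2}

/-- **Injectivity on a minimal attractor.** -/
theorem inj_att {E : Type*} [NormedAddCommGroup E] [NormedSpace ℝ E]
    (S : HypSys X E) {f : X ≃ₜ X} {N : ℕ} (hN : 1 ≤ N) (hS : S.g = iterHomeo f N)
    {A : Set X} (hA : MinAtt f A) {Y : Type*} [MetricSpace Y]
    {g : Y ≃ₜ Y} {c' : ℝ} (hLP : LP (iterHomeo g N) c')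
    {h : X → Y} (hc : Continuous h) (hh : ∀ x, h (f x) = g (h x))
    (H : ∀ p ∈ A, ∀ q ∈ A, p ∈ Function.periodicPts f → q ∈ Function.periodicPts f →
      h p = h q → p = q)
    {a b : X} (ha : a ∈ A) (hb : b ∈ A) (hab : h a = h b) : a = b := by
  obtain ⟨c, hLPf⟩ := exists_LP S
  rw [hS] at hLPf
  have hAi := hA.1.inv
  have hAj := inv_symm hA.1.inv
  have hh' : ∀ x, h (f.symm x) = g.symm (h x) := by
    intro x
    apply g.injective
    rw [← hh, f.apply_symm_apply, g.apply_symm_apply]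
  -- the product map
  let F : X × X → X × X := fun z => (f z.1, f z.2)
  let F' : X × X → X × X := fun z => (f.symm z.1, f.symm z.2)
  have hFc : Continuous F := (f.continuous.comp continuous_fst).prodMk
    (f.continuous.comp continuous_snd)
  have hF'c : Continuous F' := (f.symm.continuous.comp continuous_fst).prodMk
    (f.symm.continuous.comp continuous_snd)
  have hFF' : ∀ z, F (F' z) = z := fun z => by simp [F, F']
  have hPcl : IsClosed (PS A h) := by
    have h1 : PS A h = (Prod.fst ⁻¹' A ∩ Prod.snd ⁻¹' A) ∩ {z : X × X | h z.1 = h z.2} := by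
      ext z
      simp only [PS, mem_ofPred_eq, mem_inter_iff, mem_preimage]
      tauto
    rw [h1]
    exact ((hA.1.closed.preimage continuous_fst).inter (hA.1.closed.preimage continuous_snd)).inter
      (isClosed_eq (hc.comp continuous_fst) (hc.comp continuous_snd))
  have hFP : ∀ z ∈ PS A h, F z ∈ PS A h := fun z hz =>
    ⟨(hAi _).mpr hz.1, (hAi _).mpr hz.2.1, by show h (f z.1) = h (f z.2); rw [hh, hh, hz.2.2]⟩
  have hF'P : ∀ z ∈ PS A h, F' z ∈ PS A h := fun z hz =>
    ⟨(hAj _).mpr hz.1, (hAj _).mpr hz.2.1, by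
      show h (f.symm z.1) = h (f.symm z.2); rw [hh', hh', hz.2.2]⟩
  have hFn : ∀ n, ∀ z ∈ PS A h, F^[n] z ∈ PS A h := by
    intro n
    induction n with
    | zero => exact fun z hz => hz
    | succ n ih =>
      intro z hz
      rw [Function.iterate_succ_apply']
      exact hFP _ (ih z hz)
  have hF'n : ∀ n, ∀ z ∈ PS A h, F'^[n] z ∈ PS A h := by
    intro n
    induction n with
    | zero => exact fun z hz => hz
    | succ n ih =>
      intro z hz
      rw [Function.iterate_succ_apply']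
      exact hF'P _ (ih z hz)
  -- steps
  have hstep : ∀ δ > (0 : ℝ), ∀ z ∈ PS A h, ∀ z' ∈ PS A h, dist (F z) z' ≤ δ →
      Ch2 f A h δ z z' := by
    intro δ _ z hz z' hz' hd
    rw [Prod.dist_eq] at hd
    exact ⟨⟨hz.1, hz'.1, (le_max_left _ _).trans hd⟩,
      ⟨hz.2.1, hz'.2.1, (le_max_right _ _).trans hd⟩, hz.2.2, hz'.2.2⟩
  have horb : ∀ δ > (0 : ℝ), ∀ z ∈ PS A h, ∀ n,
      Relation.ReflTransGen (Ch2 f A h δ) z (F^[n] z) := by
    intro δ hδ z hz n
    induction n with
    | zero => exact Relation.ReflTransGen.refl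
    | succ n ih =>
      refine ih.tail (hstep δ hδ _ (hFn n z hz) _ (hFn (n + 1) z hz) ?_)
      rw [Function.iterate_succ_apply', dist_self]
      exact hδ.le
  -- a recurrent pair is diagonal
  have hclos : ∀ z ∈ PS A h, (∀ δ > 0, Relation.TransGen (Ch2 f A h δ) z z) → z.1 = z.2 :=
    fun z _ hz => closing S hN hS hA.1 hLP hc hh H hz
  -- forward cluster points
  have hfw : ∀ z ∈ PS A h, ∀ y, MapClusterPt y atTop (fun n : ℕ => F^[n] z) → y.1 = y.2 := by
    intro z hz y hy
    have hyP : y ∈ PS A h := by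
      rw [← hPcl.closure_eq, mem_closure_iff_nhds]
      intro W hW
      rw [mapClusterPt_iff_frequently] at hy
      obtain ⟨n, hn⟩ := (hy W hW).exists
      exact ⟨_, hn, hFn n z hz⟩
    refine hclos y hyP fun δ hδ => ?_
    have hV : {s | dist (F s) (F y) < δ / 2} ∩ ball y (δ / 2) ∈ 𝓝 y := by
      refine inter_mem ?_ (ball_mem_nhds _ (half_pos hδ))
      have hcont : Continuous fun s => dist (F s) (F y) := hFc.dist continuous_const
      exact (isOpen_lt hcont continuous_const).mem_nhds (by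
        show dist (F y) (F y) < δ / 2
        rw [dist_self]; linarith)
    rw [mapClusterPt_iff_frequently] at hy
    obtain ⟨n, -, hn⟩ := frequently_atTop.mp (hy _ hV) 0
    obtain ⟨k, hk1, hk⟩ := frequently_atTop.mp (hy _ hV) (n + 2)
    have c1 : Ch2 f A h δ y (F^[n + 1] z) := by
      refine hstep δ hδ _ hyP _ (hFn _ z hz) ?_
      rw [Function.iterate_succ_apply', dist_comm]
      have := hn.1
      simp only [mem_ofPred_eq] at this
      linarith
    have c2 : Relation.ReflTransGen (Ch2 f A h δ) (F^[n + 1] z) (F^[k - 1] z) := by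
      have := horb δ hδ _ (hFn (n + 1) z hz) (k - 1 - (n + 1))
      rw [← Function.iterate_add_apply] at this
      have e : k - 1 - (n + 1) + (n + 1) = k - 1 := by omega
      rwa [e] at this
    have c3 : Ch2 f A h δ (F^[k - 1] z) y := by
      refine hstep δ hδ _ (hFn _ z hz) _ hyP ?_
      rw [← Function.iterate_succ_apply' F (k - 1)]
      have e : (k - 1).succ = k := by omega
      rw [e]
      have := mem_ball.mp hk.2
      linarith
    exact Relation.TransGen.tail' ((Relation.ReflTransGen.single c1).trans c2) c3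
  -- backward cluster points
  have hFF'n : ∀ (i j : ℕ) (z : X × X), i ≤ j → F^[i] (F'^[j] z) = F'^[j - i] z := by
    intro i
    induction i with
    | zero => intro j z _; simp
    | succ i ih =>
      intro j z hij
      rw [Function.iterate_succ_apply', ih j z (by omega)]
      have e : j - i = (j - (i + 1)) + 1 := by omega
      rw [e, Function.iterate_succ_apply', hFF']
  have hbw : ∀ z ∈ PS A h, ∀ y, MapClusterPt y atTop (fun n : ℕ => F'^[n] z) → y.1 = y.2 := by
    intro z hz y hy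
    have hyP : y ∈ PS A h := by
      rw [← hPcl.closure_eq, mem_closure_iff_nhds]
      intro W hW
      rw [mapClusterPt_iff_frequently] at hy
      obtain ⟨n, hn⟩ := (hy W hW).exists
      exact ⟨_, hn, hF'n n z hz⟩
    refine hclos y hyP fun δ hδ => ?_
    have hV : {s | dist (F s) (F y) < δ / 2} ∩ ball y (δ / 2) ∈ 𝓝 y := by
      refine inter_mem ?_ (ball_mem_nhds _ (half_pos hδ))
      have hcont : Continuous fun s => dist (F s) (F y) := hFc.dist continuous_const
      exact (isOpen_lt hcont continuous_const).mem_nhds (by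
        show dist (F y) (F y) < δ / 2
        rw [dist_self]; linarith)
    rw [mapClusterPt_iff_frequently] at hy
    obtain ⟨n, -, hn⟩ := frequently_atTop.mp (hy _ hV) 0
    obtain ⟨k, hk1, hk⟩ := frequently_atTop.mp (hy _ hV) (n + 2)
    have c1 : Ch2 f A h δ y (F'^[k - 1] z) := by
      refine hstep δ hδ _ hyP _ (hF'n _ z hz) ?_
      have h3 := hFF'n 1 k z (by omega)
      rw [Function.iterate_one] at h3
      rw [← h3, dist_comm]
      have := hk.1
      simp only [mem_ofPred_eq] at this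
      linarith
    have c2 : Relation.ReflTransGen (Ch2 f A h δ) (F'^[k - 1] z) (F'^[n + 1] z) := by
      have := horb δ hδ _ (hF'n (k - 1) z hz) (k - 1 - (n + 1))
      rw [hFF'n _ _ _ (by omega)] at this
      have e : k - 1 - (k - 1 - (n + 1)) = n + 1 := by omega
      rwa [e] at this
    have c3 : Ch2 f A h δ (F'^[n + 1] z) y := by
      refine hstep δ hδ _ (hF'n _ z hz) _ hyP ?_
      have h3 := hFF'n 1 (n + 1) z (by omega)
      rw [Function.iterate_one, Nat.add_sub_cancel] at h3
      rw [h3]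
      have := mem_ball.mp hn.2
      linarith
    exact Relation.TransGen.tail' ((Relation.ReflTransGen.single c1).trans c2) c3
  -- the given pair
  have hz0 : ((a, b) : X × X) ∈ PS A h := ⟨ha, hb, hab⟩
  refine hclos (a, b) hz0 fun δ hδ => ?_
  obtain ⟨y, hy⟩ := exists_clusterPt_of_compactSpace (map (fun n : ℕ => F^[n] (a, b)) atTop)
  obtain ⟨y', hy'⟩ := exists_clusterPt_of_compactSpace (map (fun n : ℕ => F'^[n] (a, b)) atTop)
  have hyd := hfw _ hz0 y hy
  have hyd' := hbw _ hz0 y' hy'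
  have hy1 : MapClusterPt y atTop (fun n : ℕ => F^[n] (a, b)) := hy
  have hy1' : MapClusterPt y' atTop (fun n : ℕ => F'^[n] (a, b)) := hy'
  rw [mapClusterPt_iff_frequently] at hy1 hy1'
  have hu : UniformContinuous f := CompactSpace.uniformContinuous_of_continuous f.continuous
  rw [Metric.uniformContinuous_iff] at hu
  obtain ⟨η, hη, hηf⟩ := hu δ hδ
  obtain ⟨n, hn1, hn⟩ := frequently_atTop.mp (hy1 _ (ball_mem_nhds _ (half_pos hδ))) 1
  obtain ⟨k, hk1, hk⟩ := frequently_atTop.mp (hy1' _ (ball_mem_nhds _ (half_pos hη))) 1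
  have hclose : dist (F^[n] (a, b)).1 (F^[n] (a, b)).2 < δ := by
    have h1 := mem_ball.mp hn
    rw [Prod.dist_eq] at h1
    have h2 := (le_max_left _ _).trans_lt h1
    have h3 := (le_max_right _ _).trans_lt h1
    rw [← hyd] at h3
    have h4 := dist_triangle_right (F^[n] (a, b)).1 (F^[n] (a, b)).2 y.1
    linarith
  have hclose' : dist (F'^[k] (a, b)).1 (F'^[k] (a, b)).2 < η := by
    have h1 := mem_ball.mp hk
    rw [Prod.dist_eq] at h1
    have h2 := (le_max_left _ _).trans_lt h1
    have h3 := (le_max_right _ _).trans_lt h1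
    rw [← hyd'] at h3
    have h4 := dist_triangle_right (F'^[k] (a, b)).1 (F'^[k] (a, b)).2 y'.1
    linarith
  have hPn := hFn n _ hz0
  have hPk := hF'n k _ hz0
  set s := F^[n] (a, b) with hs
  set t := F'^[k] (a, b) with ht
  -- pieces
  have c1 : Relation.ReflTransGen (Ch2 f A h δ) (a, b) (F^[n - 1] (a, b)) := horb δ hδ _ hz0 _
  have c2 : Ch2 f A h δ (F^[n - 1] (a, b)) (s.1, s.1) := by
    refine hstep δ hδ _ (hFn _ _ hz0) (s.1, s.1) ⟨hPn.1, hPn.1, rfl⟩ ?_
    rw [← Function.iterate_succ_apply' F (n - 1)]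
    have e : (n - 1).succ = n := by omega
    rw [e, ← hs, Prod.dist_eq]
    refine max_le ?_ ?_
    · simp only [dist_self]; exact hδ.le
    · rw [dist_comm]; exact hclose.le
  have c3 : Relation.TransGen (Ch2 f A h δ) (s.1, s.1) (t.1, t.1) := by
    have h1 := chain_tr hN hLPf hA hPn.1 hPk.1 hδ
    have h2 : ∀ x y : X, Ch f A δ x y → Ch2 f A h δ (x, x) (y, y) := fun x y hxy =>
      ⟨hxy, hxy, rfl, rfl⟩
    exact Relation.TransGen.lift (fun x : X => (x, x)) h2 _ _ h1
  have c4 : Ch2 f A h δ (t.1, t.1) (F'^[k - 1] (a, b)) := by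
    refine hstep δ hδ (t.1, t.1) ⟨hPk.1, hPk.1, rfl⟩ _ (hF'n _ _ hz0) ?_
    have h3 := hFF'n 1 k (a, b) hk1
    rw [Function.iterate_one] at h3
    rw [← h3, ← ht, Prod.dist_eq]
    refine max_le ?_ ?_
    · simp only [F, dist_self]; exact hδ.le
    · exact (hηf hclose').le
  have c5 : Relation.ReflTransGen (Ch2 f A h δ) (F'^[k - 1] (a, b)) (a, b) := by
    have := horb δ hδ _ (hF'n (k - 1) _ hz0) (k - 1)
    rw [hFF'n _ _ _ le_rfl, Nat.sub_self] at this
    exact this
  exact (((Relation.TransGen.tail' c1 c2).trans c3).tail c4).trans_left c5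

end Pool.Agent.TH289
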