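import Pool.Agent.W740.TU.Sym

set_option autoImplicit false
set_option linter.unusedSectionVars false

open Filter Topology Set Metric

namespace Pool.Agent.TH289

open Pool.Agent.H721R2 Pool.Agent.H789R2.AN Pool.Agent.H789R2.GP

section gen

/-- A path of a transitive closure as a sequence. -/
theorem path_of_transGen {α : Type*} {r : α → α → Prop} {a b : α} (h : Relation.TransGen r a b) :
    ∃ m : ℕ, 1 ≤ m ∧ ∃ c : ℕ → α, c 0 = a ∧ c m = b ∧ ∀ i < m, r (c i) (c (i + 1)) := by
  induction h with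
  | @single b h =>
    refine ⟨1, le_rfl, fun i => if i = 0 then a else b, by simp, by simp, fun i hi => ?_⟩
    obtain rfl : i = 0 := by omega
    simpa using h
  | @tail b z _ h ih =>
    obtain ⟨m, hm, c, h0, h1, h2⟩ := ih
    refine ⟨m + 1, by omega, fun i => if i ≤ m then c i else z, by simp [h0], by simp, ?_⟩
    intro i hi
    rcases Nat.lt_or_ge i m with h3 | h3
    · have h4 : i + 1 ≤ m := h3
      have h5 : i ≤ m := by omega
      simp only [h4, h5, if_true]
      exact h2 i h3
    · obtain rfl : i = m := by omega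
      have h4 : ¬ (i + 1 ≤ i) := by omega
      simp only [le_refl, if_true, h4, if_false]
      rw [h1]
      exact h

/-- A loop as a periodic sequence. -/
theorem loop_of_transGen {α : Type*} {r : α → α → Prop} {a : α} (h : Relation.TransGen r a a) :
    ∃ m : ℕ, 1 ≤ m ∧ ∃ c : ℤ → α, (∀ n, c (n + m) = c n) ∧ c 0 = a ∧ ∀ n, r (c n) (c (n + 1)) := by
  obtain ⟨m, hm, c, h0, h1, h2⟩ := path_of_transGen h
  have hm0 : (0 : ℤ) < m := by exact_mod_cast hm
  refine ⟨m, hm, fun n => c (n % m).toNat, fun n => ?_, by simp [h0], fun n => ?_⟩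
  · show c ((n + m) % m).toNat = c (n % m).toNat
    rw [Int.add_emod_right]
  · show r (c (n % m).toNat) (c ((n + 1) % m).toNat)
    have e0 : 0 ≤ n % m := Int.emod_nonneg n hm0.ne'
    have e1 : n % m < m := Int.emod_lt_of_pos n hm0
    have h3 := h2 (n % m).toNat (by omega)
    by_cases h4 : n % m + 1 < m
    · have h5 : (n + 1) % m = n % m + 1 := by
        rw [Int.add_emod]
        have h6 : (1 : ℤ) % m = 1 := Int.emod_eq_of_lt (by norm_num) (by omega)
        rw [h6]
        exact Int.emod_eq_of_lt (by omega) h4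
      rw [h5]
      have h6 : (n % m + 1).toNat = (n % m).toNat + 1 := by omega
      rw [h6]
      exact h3
    · have h5 : n % m = m - 1 := by omega
      have h6 : (n + 1) % m = 0 := by
        have : n + 1 = m * (n / m) + m := by
          have := Int.mul_ediv_add_emod n m
          omega
        rw [this]
        simp
      rw [h6]
      have h7 : (n % (m : ℤ)).toNat + 1 = m := by omega
      rw [h7, h1] at h3
      simp only [Int.toNat_zero, h0]
      exact h3

end gen

variable {X : Type*} [MetricSpace X]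

/-- Expansivity. -/
theorem expansive {g : X ≃ₜ X} {c : ℝ} (h : LP g c) {x y : X}
    (h1 : ∀ n : ℕ, dist (g^[n] x) (g^[n] y) ≤ c)
    (h2 : ∀ n : ℕ, dist (g.symm^[n] x) (g.symm^[n] y) ≤ c) : x = y := by
  have key : ∀ m : ℕ, dist x y ≤ c * (1 / 2) ^ m := by
    intro m
    have h3 : SR g c (g.symm^[m] x) (g.symm^[m] y) := by
      intro k
      rcases le_total m k with hk | hk
      · obtain ⟨j, rfl⟩ := Nat.exists_eq_add_of_le hk
        rw [Nat.add_comm m j, Function.iterate_add_apply, iterR, Function.iterate_add_apply, iterR]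
        exact h1 j
      · obtain ⟨j, rfl⟩ := Nat.exists_eq_add_of_le hk
        rw [Function.iterate_add_apply g.symm, iterR, Function.iterate_add_apply g.symm, iterR]
        exact h2 j
    have h4 := h.cS _ _ h3 m
    rwa [iterR, iterR] at h4
  have h5 : Tendsto (fun n : ℕ => c * (1 / 2 : ℝ) ^ n) atTop (𝓝 0) := by
    have := (tendsto_pow_atTop_nhds_zero_of_lt_one (by norm_num : (0:ℝ) ≤ 1 / 2)
      (by norm_num)).const_mul c
    simpa using this
  exact dist_le_zero.mp (ge_of_tendsto' h5 key)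

/-- Shadowing of periodic pseudo-orbits by periodic points. -/
theorem per_shadow [CompactSpace X] {E : Type*} [NormedAddCommGroup E] [NormedSpace ℝ E]
    (S : HypSys X E) {ε : ℝ} (hε : 0 < ε) :
    ∃ δ > 0, ∀ (m : ℕ) (x : ℤ → X), (∀ n, x (n + m) = x n) →
      (∀ n, dist (S.g (x n)) (x (n + 1)) ≤ δ) →
      ∃ p, S.g^[m] p = p ∧ (∀ n : ℕ, dist (S.g^[n] p) (x n) ≤ ε) ∧
        ∀ n : ℕ, dist (S.g.symm^[n] p) (x (-n)) ≤ ε := by
  obtain ⟨c, hc⟩ := exists_LP S
  obtain ⟨ε₀, hε₀, hsh⟩ := S.shadowing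
  have hK := S.one_le_K
  have hK0 : 0 < S.K := by linarith
  have hc0 := hc.c_pos
  set δ := min ε₀ (min (ε / (8 * S.K)) (c / (16 * S.K))) with hδ
  have hδ0 : 0 < δ := lt_min hε₀ (lt_min (by positivity) (by positivity))
  have h1 : 8 * S.K * δ ≤ ε := by
    have : δ ≤ ε / (8 * S.K) := (min_le_right _ _).trans (min_le_left _ _)
    rw [le_div_iff₀ (by positivity)] at this
    linarith
  have h2 : 8 * S.K * δ + 8 * S.K * δ ≤ c := by
    have : δ ≤ c / (16 * S.K) := (min_le_right _ _).trans (min_le_right _ _)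
    rw [le_div_iff₀ (by positivity)] at this
    linarith
  refine ⟨δ, hδ0, fun m x hm hx => ?_⟩
  obtain ⟨y, hy1, hy2⟩ := hsh δ (min_le_left _ _) x hx
  have hy1' : ∀ n, y (n + 1 + m) = S.g (y (n + m)) := by
    intro n
    rw [← hy1 (n + m)]
    congr 1
    ring
  have hww : ∀ n, dist (y n) (y (n + m)) ≤ c := by
    intro n
    have h3 := hy2 n
    have h4 := hy2 (n + m)
    rw [hm] at h4
    have h5 := dist_triangle_right (y n) (y (n + m)) (x n)
    linarith
  have e1 : ∀ k : ℕ, S.g^[k] (y 0) = y k := fun k => (S.orbit_nat y hy1 k).symm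
  have e2 : ∀ k : ℕ, S.g^[k] (y m) = y (k + m) := fun k => by
    have := S.orbit_nat (fun n => y (n + m)) hy1' k
    simp only [zero_add] at this
    exact this.symm
  have e3 : ∀ k : ℕ, S.g.symm^[k] (y 0) = y (-k) := fun k => (S.orbit_neg y hy1 k).symm
  have e4 : ∀ k : ℕ, S.g.symm^[k] (y m) = y (-k + m) := fun k => by
    have := S.orbit_neg (fun n => y (n + m)) hy1' k
    simp only [zero_add] at this
    exact this.symm
  have h3 : y 0 = y m := by
    apply expansive hc
    · intro n; rw [e1, e2]; exact hww _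
    · intro n; rw [e3, e4]; exact hww _
  refine ⟨y 0, ?_, fun n => ?_, fun n => ?_⟩
  · rw [e1]; exact h3.symm
  · rw [e1]; exact (hy2 n).trans h1
  · rw [e3]; exact (hy2 _).trans h1

theorem iterHomeo_apply (f : X ≃ₜ X) (N : ℕ) (x : X) : iterHomeo f N x = f^[N] x := rfl

theorem iterHomeo_symm_apply (f : X ≃ₜ X) (N : ℕ) (x : X) :
    (iterHomeo f N).symm x = f.symm^[N] x := rfl

theorem iterHomeo_iter (f : X ≃ₜ X) (N k : ℕ) (x : X) : (iterHomeo f N)^[k] x = f^[N * k] x := by
  rw [Function.iterate_mul]; rfl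

theorem iterHomeo_symm_iter (f : X ≃ₜ X) (N k : ℕ) (x : X) :
    (iterHomeo f N).symm^[k] x = f.symm^[N * k] x := by
  rw [Function.iterate_mul]; rfl

/-- The symmetric of the iterate. -/
theorem iterHomeo_symm (f : X ≃ₜ X) (N : ℕ) : (iterHomeo f N).symm = iterHomeo f.symm N := by
  ext x; rfl

theorem pseudo_iter [CompactSpace X] (f : X ≃ₜ X) (N : ℕ) {ε : ℝ} (hε : 0 < ε) :
    ∃ δ > 0, ∀ c : ℕ → X, (∀ i, dist (f (c i)) (c (i + 1)) ≤ δ) → dist (f^[N] (c 0)) (c N) ≤ ε := by
  induction N generalizing ε with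
  | zero => exact ⟨1, one_pos, fun c _ => by simpa using hε.le⟩
  | succ N ih =>
    obtain ⟨η, hη, h1⟩ := T1_unif f 1 (half_pos hε)
    obtain ⟨δ, hδ, h2⟩ := ih (half_pos hη)
    refine ⟨min δ (ε / 2), lt_min hδ (half_pos hε), fun c hc => ?_⟩
    have h3 := h2 c fun i => (hc i).trans (min_le_left _ _)
    have h4 := h1 1 le_rfl _ _ (h3.trans_lt (half_lt_self hη))
    have h5 := (hc N).trans (min_le_right _ _)
    rw [Function.iterate_succ_apply']
    simp only [Function.iterate_one] at h4
    have h6 := dist_triangle (f (f^[N] (c 0))) (f (c N)) (c (N + 1))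
    linarith

/-- `WS` for a homeomorphism and for an iterate. -/
theorem WS_iter_iff [CompactSpace X] (f : X ≃ₜ X) {N : ℕ} (hN : 1 ≤ N) (x y : X) :
    WS (iterHomeo f N) x y ↔ WS f x y := by
  constructor
  · intro h
    refine tendsto_order.mpr ⟨fun a ha => Eventually.of_forall fun n =>
      lt_of_lt_of_le ha dist_nonneg, fun a ha => ?_⟩
    obtain ⟨η, hη, h1⟩ := T1_unif f N ha
    obtain ⟨m, hm⟩ := h.eventually_lt hη
    filter_upwards [eventually_ge_atTop (N * m)] with n hn
    have hnn : n = n % N + N * (n / N) := (Nat.mod_add_div n N).symm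
    have h2 : m ≤ n / N := by
      rw [Nat.le_div_iff_mul_le (by omega)]
      rwa [Nat.mul_comm]
    have h3 := hm (n / N) h2
    rw [iterHomeo_iter, iterHomeo_iter] at h3
    have h4 := h1 (n % N) (Nat.mod_lt _ (by omega)).le _ _ h3
    rw [← Function.iterate_add_apply, ← Function.iterate_add_apply, ← hnn] at h4
    exact h4
  · intro h
    have h1 : Tendsto (fun k : ℕ => N * k) atTop atTop :=
      tendsto_id.const_mul_atTop' (by omega)
    have h2 : Tendsto (fun n : ℕ => dist (f^[n] x) (f^[n] y)) atTop (𝓝 0) := h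
    have h3 := h2.comp h1
    refine h3.congr fun k => ?_
    simp only [Function.comp_apply]
    rw [iterHomeo_iter, iterHomeo_iter]

end Pool.Agent.TH289
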