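import Pool.Agent.TH289.Plaque
import Pool.Agent.TH289.Def

set_option autoImplicit false
set_option linter.unusedSectionVars false

open Filter Topology Set Metric
open scoped Manifold ContDiff

namespace Pool.Agent.TH289

open Pool.Agent.H721R2 Pool.Agent.H789R2.AN Pool.Agent.H789R2.GP Pool.Agent.H779R2.An

section metric

variable {X : Type*} [MetricSpace X] [CompactSpace X]

theorem asym_iff (f : X ≃ₜ X) (x y : X) : Asym f x y ↔ WS f x y := by
  unfold Asym WS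
  rw [nhdsSet_diagonal_eq_uniformity, tendsto_uniformity_iff_dist_tendsto_zero]

theorem cluster_per {f : X ≃ₜ X} {p y : X} (hp : p ∈ Function.periodicPts f)
    (hy : MapClusterPt y atTop (fun n : ℕ => f^[n] p)) : ∃ m : ℕ, y = f^[m] p := by
  obtain ⟨k, hk, hkp⟩ := hp
  have hfin : (range fun i : Fin k => f^[i.1] p).Finite := finite_range _
  have hcl : y ∈ closure (range fun i : Fin k => f^[i.1] p) := by
    rw [mem_closure_iff_nhds]
    intro W hW
    rw [mapClusterPt_iff_frequently] at hy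
    obtain ⟨n, hn⟩ := (hy W hW).exists
    refine ⟨f^[n] p, hn, ⟨⟨n % k, Nat.mod_lt _ hk⟩, ?_⟩⟩
    exact (hkp.iterate_mod_apply n)
  rw [hfin.isClosed.closure_eq] at hcl
  obtain ⟨i, hi⟩ := hcl
  exact ⟨i.1, hi.symm⟩

/-- Periodic points of a minimal attractor are heteroclinically related. -/
theorem hetero_of_min {f : X ≃ₜ X} {N : ℕ} (hN : 1 ≤ N) {c : ℝ} (h : LP (iterHomeo f N) c)
    {A : Set X} (hA : MinAtt f A) {p q : X} (hp : p ∈ A) (hq : q ∈ A)
    (hpp : p ∈ Function.periodicPts f) : Hetero f p q := by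
  have hatt := att_omega hN h p
  set S : Set X := {w | ∃ y, MapClusterPt y atTop (fun n : ℕ => f^[n] p) ∧ WS f.symm y w} with hS
  have hSA : S ⊆ A := by
    rintro w ⟨z, hz, hzw⟩
    obtain ⟨m, rfl⟩ := cluster_per hpp hz
    exact hA.1.sat _ ((inv_iter hA.1.inv m p).mpr hp) w hzw
  have hAS : A ⊆ closure S := hA.2 _ hatt (closure_minimal hSA hA.1.closed)
  obtain ⟨δ, hδ, hlp⟩ := h.lp c h.c_pos
  obtain ⟨w, ⟨y, hy, hyw⟩, hwq⟩ := Metric.mem_closure_iff.mp (hAS hq) δ hδ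
  obtain ⟨m, rfl⟩ := cluster_per hpp hy
  obtain ⟨z, hz1, hz2⟩ := hlp q w hwq
  refine ⟨m, z, ?_, ?_⟩
  · rw [asym_iff]
    refine hyw.trans ?_
    rw [← WS_iter_iff f.symm hN, ← iterHomeo_symm]
    exact WS.of_SR (h.cU _ _ hz2)
  · rw [asym_iff, ← WS_iter_iff f hN]
    exact WS.of_SR (h.cS _ _ hz1)

theorem hetero_symm {f : X ≃ₜ X} {p q : X} (h : Hetero f.symm p q) : Hetero f q p := by
  obtain ⟨m, z, h1, h2⟩ := h
  rw [asym_iff] at h1 h2
  refine ⟨m, f^[m] z, ?_, ?_⟩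
  · rw [asym_iff]
    exact h2.mapIter (φ := f) (fun x => by simp) m
  · rw [asym_iff]
    have h3 : WS f (f.symm^[m] p) z := h1
    rwa [← WS.iter m, iterR] at h3

theorem homRel_symm {f : X ≃ₜ X} {p q : X} (h : HomRel f.symm p q) : HomRel f p q :=
  ⟨hetero_symm h.2, hetero_symm h.1⟩

theorem periodic_symm {f : X ≃ₜ X} {p : X} (h : p ∈ Function.periodicPts f.symm) :
    p ∈ Function.periodicPts f := by
  obtain ⟨n, hn, hx⟩ := h
  refine ⟨n, hn, ?_⟩
  have h5 : f.symm^[n] p = p := hx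
  have h6 : f^[n] (f.symm^[n] p) = p := iterR f n p
  rw [h5] at h6
  exact h6

end metric

section core

variable {X₁ F₁ : Type*} [MetricSpace X₁] [CompactSpace X₁] [NormedAddCommGroup F₁]
  [InnerProductSpace ℝ F₁] [FiniteDimensional ℝ F₁]
  {X₂ F₂ : Type*} [MetricSpace X₂] [CompactSpace X₂] [NormedAddCommGroup F₂]
  [InnerProductSpace ℝ F₂] [FiniteDimensional ℝ F₂]

theorem isAtt_univ {X : Type*} [MetricSpace X] [Nonempty X] (g : X ≃ₜ X) : IsAtt g univ :=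
  ⟨isClosed_univ, univ_nonempty, fun _ => by simp, fun _ _ _ _ => mem_univ _⟩

/-- The core: `h` injective on one attractor. -/
theorem core [ConnectedSpace X₁] (S₁ : HypSys X₁ F₁) (S₂ : HypSys X₂ F₂) {s u : ℕ}
    (hs₁ : ∀ x, Module.finrank ℝ (S₁.Vs x) = s) (hs₂ : ∀ x, Module.finrank ℝ (S₂.Vs x) = s)
    (hu₁ : ∀ x, Module.finrank ℝ (S₁.Vu x) = u) (hu₂ : ∀ x, Module.finrank ℝ (S₂.Vu x) = u)
    {f : X₁ ≃ₜ X₁} {g : X₂ ≃ₜ X₂} {N : ℕ} (hN : 1 ≤ N) (hf : S₁.g = iterHomeo f N)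
    (hg : S₂.g = iterHomeo g N) (ht : TopTransitive (g : X₂ → X₂)) {h : X₁ → X₂}
    (hc : Continuous h) (hh : ∀ x, h (f x) = g (h x)) {A : Set X₁} (hA : IsAtt f A)
    (hinj : InjOn h A) :
    A = univ := by
  obtain ⟨c₁, hLP₁⟩ := exists_LP S₁
  obtain ⟨c₂, hLP₂⟩ := exists_LP S₂
  have hhN : ∀ x, h (S₁.g x) = S₂.g (h x) := by
    intro x
    rw [hf, hg]
    exact (Function.Semiconj.iterate_right (f := h) (ga := f) (gb := g) hh N) x
  have hP : PSemi S₁.g S₂.g A h :=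
    ⟨by rw [hf]; exact att_iter hA hN, hc, hinj, fun x _ => hhN x⟩
  have hatt := image_att S₁ S₂ hu₁ hu₂ hP
  have hinv : ∀ y, g y ∈ h '' A ↔ y ∈ h '' A := by
    intro y
    constructor
    · rintro ⟨x, hx, hxy⟩
      refine ⟨f.symm x, (inv_symm hA.inv x).mpr hx, ?_⟩
      apply g.injective
      rw [← hh, f.apply_symm_apply, hxy]
    · rintro ⟨x, hx, rfl⟩
      exact ⟨f x, (hA.inv x).mpr hx, hh x⟩
  rw [hg] at hLP₂ hatt
  have huniv : h '' A = univ := univ_of_trans hN hLP₂ ht hatt hinv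
  -- the inverse map
  have hAc : CompactSpace A := isCompact_iff_compactSpace.mp hA.closed.isCompact
  let h₀ : A → X₂ := fun x => h x
  have h₀b : Function.Bijective h₀ := by
    constructor
    · intro x y hxy
      exact Subtype.ext (hinj x.2 y.2 hxy)
    · intro y
      have : y ∈ h '' A := by rw [huniv]; trivial
      obtain ⟨x, hx, hxy⟩ := this
      exact ⟨⟨x, hx⟩, hxy⟩
  have h₀c : Continuous h₀ := hc.comp continuous_subtype_val
  let e : A ≃ₜ X₂ := h₀c.homeoOfEquivCompactToT2 (f := Equiv.ofBijective h₀ h₀b)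
  let k : X₂ → X₁ := fun y => (e.symm y : X₁)
  have hek : ∀ x : A, e x = h x := fun _ => rfl
  have hk : ∀ y, h (k y) = y := fun y => by
    rw [← hek]; exact e.apply_symm_apply y
  have hkA : ∀ y, k y ∈ A := fun y => (e.symm y).2
  have hkr : k '' univ = A := by
    ext x
    constructor
    · rintro ⟨y, -, rfl⟩
      exact hkA y
    · intro hx
      exact ⟨h x, mem_univ _, hinj (hkA _) hx (hk _)⟩
  have hne : Nonempty X₂ := ⟨h (Classical.arbitrary X₁)⟩
  have hP' : PSemi S₂.symm.g S₁.symm.g univ k := by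
    refine ⟨isAtt_univ _, continuous_subtype_val.comp e.symm.continuous, ?_, ?_⟩
    · intro y _ y' _ hyy
      rw [← hk y, ← hk y', hyy]
    · intro y _
      have h1 : S₁.g.symm (k y) ∈ A := (inv_symm hP.att.inv _).mpr (hkA y)
      refine hinj (hkA _) h1 ?_
      rw [hk]
      have h2 := hP.comm' (hkA y)
      rw [hk] at h2
      exact h2.symm
  have hatt' := image_att S₂.symm S₁.symm (u := s) hs₂ hs₁ hP'
  rw [hkr] at hatt'
  have hopen : IsOpen A := by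
    refine open_of_sat hLP₁ (by rw [hf]; exact att_iter hA hN) fun x hx y hxy => ?_
    exact hatt'.sat x hx y hxy
  exact IsClopen.eq_univ ⟨hA.closed, hopen⟩ hA.nonempty

/-- injective semiconjugacies are conjugacies -/
theorem conc [ConnectedSpace X₁] (S₁ : HypSys X₁ F₁) (S₂ : HypSys X₂ F₂) {u : ℕ}
    (hu₁ : ∀ x, Module.finrank ℝ (S₁.Vu x) = u) (hu₂ : ∀ x, Module.finrank ℝ (S₂.Vu x) = u)
    {f : X₁ ≃ₜ X₁} {g : X₂ ≃ₜ X₂} {N : ℕ} (hN : 1 ≤ N) (hf : S₁.g = iterHomeo f N)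
    (hg : S₂.g = iterHomeo g N) (ht : TopTransitive (g : X₂ → X₂)) {h : X₁ → X₂}
    (hc : Continuous h) (hh : ∀ x, h (f x) = g (h x)) (hinj : Function.Injective h) :
    IsHomeomorph h ∧ TopTransitive (f : X₁ → X₁) := by
  obtain ⟨c₂, hLP₂⟩ := exists_LP S₂
  rw [hg] at hLP₂
  have hhN : ∀ x, h (S₁.g x) = S₂.g (h x) := by
    intro x
    rw [hf, hg]
    exact (Function.Semiconj.iterate_right (f := h) (ga := f) (gb := g) hh N) x
  have hatt := image_att S₁ S₂ hu₁ hu₂ (K := univ) (k := h)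
    ⟨isAtt_univ _, hc, hinj.injOn, fun x _ => hhN x⟩
  have hinv : ∀ y, g y ∈ h '' univ ↔ y ∈ h '' univ := by
    intro y
    constructor
    · rintro ⟨x, -, hxy⟩
      refine ⟨f.symm x, trivial, ?_⟩
      apply g.injective
      rw [← hh, f.apply_symm_apply, hxy]
    · rintro ⟨x, -, rfl⟩
      exact ⟨f x, trivial, hh x⟩
  rw [hg] at hatt
  have huniv : h '' univ = univ := univ_of_trans hN hLP₂ ht hatt hinv
  have hsurj : Function.Surjective h := by
    intro y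
    have : y ∈ h '' univ := by rw [huniv]; trivial
    obtain ⟨x, -, hx⟩ := this
    exact ⟨x, hx⟩
  have hhom : IsHomeomorph h := isHomeomorph_iff_continuous_bijective.mpr ⟨hc, hinj, hsurj⟩
  refine ⟨hhom, ?_⟩
  intro U V hU hUn hV hVn
  obtain ⟨n, y, ⟨x, ⟨x', hx', rfl⟩, hxy⟩, ⟨v, hv, hvy⟩⟩ := ht (h '' U) (h '' V)
    (hhom.isOpenMap U hU) (hUn.image h) (hhom.isOpenMap V hV) (hVn.image h)
  refine ⟨n, v, ⟨x', hx', ?_⟩, hv⟩
  apply hinj
  rw [hvy, ← hxy]
  exact (Function.Semiconj.iterate_right (f := h) (ga := f) (gb := g) hh n) x'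

/-- abstract form of the theorem on one attractor -/
theorem abs_att [ConnectedSpace X₁] (S₁ : HypSys X₁ F₁) (S₂ : HypSys X₂ F₂) {s u : ℕ}
    (hs₁ : ∀ x, Module.finrank ℝ (S₁.Vs x) = s) (hs₂ : ∀ x, Module.finrank ℝ (S₂.Vs x) = s)
    (hu₁ : ∀ x, Module.finrank ℝ (S₁.Vu x) = u) (hu₂ : ∀ x, Module.finrank ℝ (S₂.Vu x) = u)
    {f : X₁ ≃ₜ X₁} {g : X₂ ≃ₜ X₂} {N : ℕ} (hN : 1 ≤ N) (hf : S₁.g = iterHomeo f N)
    (hg : S₂.g = iterHomeo g N) (ht : TopTransitive (g : X₂ → X₂)) {h : X₁ → X₂}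
    (hc : Continuous h) (hh : ∀ x, h (f x) = g (h x)) {L : Set X₁} (hL : IsAtt f L)
    (H : ∀ p ∈ L, ∀ q ∈ L, p ∈ Function.periodicPts f → q ∈ Function.periodicPts f →
      HomRel f p q → h p = h q → p = q) :
    L = univ ∧ IsHomeomorph h ∧ TopTransitive (f : X₁ → X₁) := by
  obtain ⟨c₁, hLP₁⟩ := exists_LP S₁
  obtain ⟨c₂, hLP₂⟩ := exists_LP S₂
  rw [hf] at hLP₁
  rw [hg] at hLP₂
  obtain ⟨A, hAL, hA⟩ := exists_minAtt hL
  have hinjA : InjOn h A := by
    intro a ha b hb hab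
    refine inj_att S₁ hN hf hA hLP₂ hc hh ?_ ha hb hab
    intro p hp q hq hpp hqq hpq
    exact H p (hAL hp) q (hAL hq) hpp hqq ⟨hetero_of_min hN hLP₁ hA hp hq hpp,
      hetero_of_min hN hLP₁ hA hq hp hqq⟩ hpq
  have hAu := core S₁ S₂ hs₁ hs₂ hu₁ hu₂ hN hf hg ht hc hh hA.1 hinjA
  have hinj : Function.Injective h := by
    rw [hAu] at hinjA
    exact injOn_univ.mp hinjA
  refine ⟨?_, conc S₁ S₂ hu₁ hu₂ hN hf hg ht hc hh hinj⟩
  rw [hAu] at hAL
  exact univ_subset_iff.mp hAL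

/-- the rank inequality -/
theorem abs_rank (S₁ : HypSys X₁ F₁) (S₂ : HypSys X₂ F₂) {u₁ u₂ : ℕ}
    (hu₁ : ∀ x, Module.finrank ℝ (S₁.Vu x) = u₁) (hu₂ : ∀ x, Module.finrank ℝ (S₂.Vu x) = u₂)
    {f : X₁ ≃ₜ X₁} {g : X₂ ≃ₜ X₂} {N : ℕ} (hN : 1 ≤ N) (hf : S₁.g = iterHomeo f N)
    (hg : S₂.g = iterHomeo g N) {h : X₁ → X₂}
    (hc : Continuous h) (hh : ∀ x, h (f x) = g (h x)) {L : Set X₁} (hL : IsAtt f L)
    (H : ∀ p ∈ L, ∀ q ∈ L, p ∈ Function.periodicPts f → q ∈ Function.periodicPts f →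
      HomRel f p q → h p = h q → p = q) : u₁ ≤ u₂ := by
  obtain ⟨c₁, hLP₁⟩ := exists_LP S₁
  obtain ⟨c₂, hLP₂⟩ := exists_LP S₂
  rw [hf] at hLP₁
  rw [hg] at hLP₂
  have hhN : ∀ x, h (S₁.g x) = S₂.g (h x) := by
    intro x
    rw [hf, hg]
    exact (Function.Semiconj.iterate_right (f := h) (ga := f) (gb := g) hh N) x
  obtain ⟨A, hAL, hA⟩ := exists_minAtt hL
  have hinjA : InjOn h A := by
    intro a ha b hb hab
    refine inj_att S₁ hN hf hA hLP₂ hc hh ?_ ha hb hab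
    intro p hp q hq hpp hqq hpq
    exact H p (hAL hp) q (hAL hq) hpp hqq ⟨hetero_of_min hN hLP₁ hA hp hq hpp,
      hetero_of_min hN hLP₁ hA hq hp hqq⟩ hpq
  exact rank_le S₁ S₂ hu₁ hu₂
    (K := A) (k := h) ⟨by rw [hf]; exact att_iter hA.1 hN, hc, hinjA, fun x _ => hhN x⟩

end core

section manifold

variable {E : Type*} [NormedAddCommGroup E] [NormedSpace ℝ E] [FiniteDimensional ℝ E]
  {M : Type*} [TopologicalSpace M] [T2Space M] [CompactSpace M] [ConnectedSpace M]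
  [ChartedSpace E M] [IsManifold 𝓘(ℝ, E) ∞ M]
  {E' : Type*} [NormedAddCommGroup E'] [NormedSpace ℝ E'] [FiniteDimensional ℝ E']
  {M' : Type*} [TopologicalSpace M'] [T2Space M'] [CompactSpace M']
  [ChartedSpace E' M'] [IsManifold 𝓘(ℝ, E') ∞ M']

/-- `exists_sys` for all large iterates -/
theorem exists_sys_ev {E₀ : Type*} [NormedAddCommGroup E₀] [NormedSpace ℝ E₀]
    [FiniteDimensional ℝ E₀]
    {M : Type*} [MetricSpace M] [CompactSpace M] [ChartedSpace E₀ M] [IsManifold 𝓘(ℝ, E₀) 1 M]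
    {F : Type*} [NormedAddCommGroup F] [NormedSpace ℝ F]
    {e : M → F} (hiso : ∀ x y, dist x y = ‖e x - e y‖)
    (he : ContMDiff 𝓘(ℝ, E₀) 𝓘(ℝ, F) 1 e) (hinj : ∀ x, Function.Injective (dm E₀ e x))
    (f : Diffeomorph 𝓘(ℝ, E₀) 𝓘(ℝ, E₀) M M 1)
    (Es Eu : ∀ x : M, Submodule ℝ (TangentSpace 𝓘(ℝ, E₀) x)) (h : IsAnosov f Es Eu) :
    ∀ᶠ n : ℕ in atTop, ∃ (S : HypSys M F), S.g = iterHomeo f.toHomeomorph n ∧ S.e = e ∧
      (∀ x, S.Vs x = Submodule.map (dm E₀ e x).toLinearMap (Es x)) ∧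
      (∀ x, S.Vu x = Submodule.map (dm E₀ e x).toLinearMap (Eu x)) := by
  obtain ⟨C, a, b, Ls, Lu, hE⟩ := eanosov_of_isAnosov e he hinj f Es Eu h
  obtain ⟨K, hK, hang⟩ := hE.angle he hinj
  have t1 : Tendsto (fun n : ℕ => K * (C * a ^ n)) atTop (𝓝 0) := by
    have := ((tendsto_pow_atTop_nhds_zero_of_lt_one hE.a_pos.le hE.a_lt).const_mul C).const_mul K
    simpa using this
  have t2 : Tendsto (fun n : ℕ => K * (C * b ^ n)) atTop (𝓝 0) := by
    have := ((tendsto_pow_atTop_nhds_zero_of_lt_one hE.b_pos.le hE.b_lt).const_mul C).const_mul K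
    simpa using this
  filter_upwards [(tendsto_order.mp t1).2 (1 / 16) (by norm_num),
    (tendsto_order.mp t2).2 (1 / 16) (by norm_num)] with n h1 h2
  exact exists_hypSys' hiso he hinj hE K hK hang n h1.le h2.le

/-- **Main theorem.** -/
theorem man_main (f : Diffeomorph 𝓘(ℝ, E) 𝓘(ℝ, E) M M 1)
    (Es Eu : ∀ x : M, Submodule ℝ (TangentSpace 𝓘(ℝ, E) x)) (hA : IsAnosov f Es Eu)
    {s u : ℕ} (hs : ∀ x, Module.finrank ℝ (Es x) = s) (hu : ∀ x, Module.finrank ℝ (Eu x) = u)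
    (g : Diffeomorph 𝓘(ℝ, E') 𝓘(ℝ, E') M' M' 1)
    (Es' Eu' : ∀ x : M', Submodule ℝ (TangentSpace 𝓘(ℝ, E') x)) (hB : IsAnosov g Es' Eu')
    {s' u' : ℕ} (hs' : ∀ x, Module.finrank ℝ (Es' x) = s')
    (hu' : ∀ x, Module.finrank ℝ (Eu' x) = u') (ht : TopTransitive g)
    (hdim : Module.finrank ℝ E' ≤ Module.finrank ℝ E)
    (h : M → M') (hc : Continuous h) (hh : ∀ x, h (f x) = g (h x))
    (L : Set M) (hL : UnstSat f.toHomeomorph L) (H : Separates f.toHomeomorph h L)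
    (hr : s ≤ s' ∨ ∃ L', UnstSat f.toHomeomorph.symm L' ∧ Separates f.toHomeomorph h L') :
    L = univ ∧ IsHomeomorph h ∧ TopTransitive f ∧ s = s' ∧ u = u' := by
  obtain ⟨m, ee, hee, hemb, hinje⟩ :=
    exists_embedding_euclidean_of_compact (I := 𝓘(ℝ, E)) (M := M)
  obtain ⟨m', ee', hee', hemb', hinje'⟩ :=
    exists_embedding_euclidean_of_compact (I := 𝓘(ℝ, E')) (M := M')
  let _ : MetricSpace M := hemb.isEmbedding.comapMetricSpace ee
  let _ : MetricSpace M' := hemb'.isEmbedding.comapMetricSpace ee'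
  have hiso : ∀ x y : M, dist x y = ‖ee x - ee y‖ := fun x y => dist_eq_norm (ee x) (ee y)
  have hiso' : ∀ x y : M', dist x y = ‖ee' x - ee' y‖ := fun x y => dist_eq_norm (ee' x) (ee' y)
  have he1 : ContMDiff 𝓘(ℝ, E) (𝓡 m) 1 ee := hee.of_le (by simp)
  have he1' : ContMDiff 𝓘(ℝ, E') (𝓡 m') 1 ee' := hee'.of_le (by simp)
  obtain ⟨N, ⟨⟨S, hg, hSe, hVs, hVu⟩, ⟨S', hg', hSe', hVs', hVu'⟩⟩, hN⟩ :=
    (((exists_sys_ev hiso he1 hinje f Es Eu hA).and
      (exists_sys_ev hiso' he1' hinje' g Es' Eu' hB)).and (eventually_ge_atTop 1)).exists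
  have hfin : ∀ (x : M) (V : Submodule ℝ E),
      Module.finrank ℝ (V.map (dm E ee x).toLinearMap) = Module.finrank ℝ V := fun x V =>
    (LinearEquiv.finrank_eq
      (Submodule.equivMapOfInjective (dm E ee x).toLinearMap (hinje x) V)).symm
  have hfin' : ∀ (x : M') (V : Submodule ℝ E'),
      Module.finrank ℝ (V.map (dm E' ee' x).toLinearMap) = Module.finrank ℝ V := fun x V =>
    (LinearEquiv.finrank_eq
      (Submodule.equivMapOfInjective (dm E' ee' x).toLinearMap (hinje' x) V)).symm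
  have hVs1 : ∀ x, Module.finrank ℝ (S.Vs x) = s := fun x => by
    rw [hVs]; exact (hfin x (Es x)).trans (hs x)
  have hVs2 : ∀ x, Module.finrank ℝ (S'.Vs x) = s' := fun x => by
    rw [hVs']; exact (hfin' x (Es' x)).trans (hs' x)
  have hVu1 : ∀ x, Module.finrank ℝ (S.Vu x) = u := fun x => by
    rw [hVu]; exact (hfin x (Eu x)).trans (hu x)
  have hVu2 : ∀ x, Module.finrank ℝ (S'.Vu x) = u' := fun x => by
    rw [hVu']; exact (hfin' x (Eu' x)).trans (hu' x)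
  have x₀ : M := Classical.arbitrary M
  have hd : s + u = Module.finrank ℝ E := by
    rw [← hs x₀, ← hu x₀]
    exact Submodule.finrank_add_eq_of_isCompl (K := ℝ) (V := E) (hA.isCompl x₀)
  have hd' : s' + u' = Module.finrank ℝ E' := by
    rw [← hs' (h x₀), ← hu' (h x₀)]
    exact Submodule.finrank_add_eq_of_isCompl (K := ℝ) (V := E') (hB.isCompl (h x₀))
  have hLa : IsAtt f.toHomeomorph L := ⟨hL.closed, hL.nonempty, hL.inv, fun x hx y hxy =>
    hL.sat x hx y ((asym_iff (f.toHomeomorph.symm) x y).mpr hxy)⟩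
  have hule : u ≤ u' := abs_rank S S' hVu1 hVu2 hN hg hg' hc hh hLa H
  have hsle : s ≤ s' := by
    rcases hr with hr | ⟨L', hL', H'⟩
    · exact hr
    · have hh' : ∀ x, h (f.toHomeomorph.symm x) = g.toHomeomorph.symm (h x) := by
        intro x
        apply g.toHomeomorph.injective
        have h1 := hh (f.toHomeomorph.symm x)
        have h2 : f (f.toHomeomorph.symm x) = x := f.toHomeomorph.apply_symm_apply x
        rw [h2] at h1
        rw [g.toHomeomorph.apply_symm_apply]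
        exact h1.symm
      have hf' : S.symm.g = iterHomeo f.toHomeomorph.symm N := by
        have : S.symm.g = S.g.symm := rfl
        rw [this, hg, iterHomeo_symm]
      have hg'' : S'.symm.g = iterHomeo g.toHomeomorph.symm N := by
        have : S'.symm.g = S'.g.symm := rfl
        rw [this, hg', iterHomeo_symm]
      have hLb : IsAtt f.toHomeomorph.symm L' := ⟨hL'.closed, hL'.nonempty, hL'.inv,
        fun x hx y hxy => hL'.sat x hx y ((asym_iff (f.toHomeomorph.symm.symm) x y).mpr hxy)⟩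
      exact abs_rank S.symm S'.symm hVs1 hVs2 hN hf' hg'' hc hh' hLb
        fun p hpL q hqL hp hq hpq => H' p hpL q hqL (periodic_symm hp) (periodic_symm hq)
          (homRel_symm hpq)
  obtain rfl : u = u' := by omega
  obtain rfl : s = s' := by omega
  obtain ⟨h1, h2, h3⟩ := abs_att S S' hVs1 hVs2 hVu1 hVu2 hN hg hg' ht hc hh hLa H
  exact ⟨h1, h2, h3, rfl, rfl⟩

end manifold

end Pool.Agent.TH289
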