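import Pool.Agent.TH289.AttInj
import Pool.Agent.W964.LieExp.InvDim

set_option autoImplicit false
set_option linter.unusedSectionVars false

open Filter Topology Set Metric

namespace Pool.Agent.TH289

open Pool.Agent.H721R2 Pool.Agent.H789R2.AN Pool.Agent.H789R2.GP Pool.Agent.H779R2.An
open Pool.Agent.W740.TU (isClosed_SR)

variable {X₁ F₁ : Type*} [MetricSpace X₁] [CompactSpace X₁] [NormedAddCommGroup F₁]
  [InnerProductSpace ℝ F₁] [FiniteDimensional ℝ F₁]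
  {X₂ F₂ : Type*} [MetricSpace X₂] [CompactSpace X₂] [NormedAddCommGroup F₂]
  [InnerProductSpace ℝ F₂] [FiniteDimensional ℝ F₂]

theorem chart_cont {X F : Type*} [MetricSpace X] [NormedAddCommGroup F] [NormedSpace ℝ F]
    {S : HypSys X F} {d : ℕ} {x : X} {ρ ρ₁ : ℝ} {ψ : EuclideanSpace ℝ (Fin d) → X}
    (hψ : IsChart S x ρ ρ₁ ψ) : ContinuousOn ψ (closedBall 0 ρ₁) := by
  intro a ha
  rw [Metric.continuousWithinAt_iff]
  intro e he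
  refine ⟨e / 2, half_pos he, fun {b} hb hba => ?_⟩
  rw [mem_closedBall_zero_iff] at ha hb
  have h1 := hψ.le b a hb ha
  rw [dist_eq_norm] at hba
  linarith

/-- hypotheses on a partial semiconjugacy -/
structure PSemi (g₁ : X₁ ≃ₜ X₁) (g₂ : X₂ ≃ₜ X₂) (K : Set X₁) (k : X₁ → X₂) : Prop where
  att : IsAtt g₁ K
  cont : Continuous k
  inj : InjOn k K
  comm : ∀ x ∈ K, k (g₁ x) = g₂ (k x)

theorem PSemi.comm' {g₁ : X₁ ≃ₜ X₁} {g₂ : X₂ ≃ₜ X₂} {K : Set X₁} {k : X₁ → X₂}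
    (H : PSemi g₁ g₂ K k) {x : X₁} (hx : x ∈ K) : k (g₁.symm x) = g₂.symm (k x) := by
  apply g₂.injective
  rw [← H.comm _ ((inv_symm H.att.inv x).mpr hx), g₁.apply_symm_apply, g₂.apply_symm_apply]

theorem PSemi.iter' {g₁ : X₁ ≃ₜ X₁} {g₂ : X₂ ≃ₜ X₂} {K : Set X₁} {k : X₁ → X₂}
    (H : PSemi g₁ g₂ K k) {x : X₁} (hx : x ∈ K) (n : ℕ) :
    k (g₁.symm^[n] x) = g₂.symm^[n] (k x) := by
  induction n with
  | zero => rfl
  | succ n ih =>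
    rw [Function.iterate_succ_apply', Function.iterate_succ_apply',
      H.comm' ((inv_iter (inv_symm H.att.inv) n x).mpr hx), ih]

/-- The chart representation of `k` on an unstable plaque. -/
theorem chart_rep (S₁ : HypSys X₁ F₁) (S₂ : HypSys X₂ F₂) {u₁ u₂ : ℕ}
    (hu₁ : ∀ x, Module.finrank ℝ (S₁.Vu x) = u₁) (hu₂ : ∀ x, Module.finrank ℝ (S₂.Vu x) = u₂)
    {K : Set X₁} {k : X₁ → X₂} (H : PSemi S₁.g S₂.g K k) :
    ∃ ρ > 0, ∀ x ∈ K, ∃ (r₁ r₂ : ℝ) (ψ : EuclideanSpace ℝ (Fin u₂) → X₂)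
      (φ : EuclideanSpace ℝ (Fin u₁) → X₁)
      (β : EuclideanSpace ℝ (Fin u₁) → EuclideanSpace ℝ (Fin u₂)), 0 < r₁ ∧ 0 < r₂ ∧
      ψ 0 = k x ∧ β 0 = 0 ∧ ContinuousOn β (closedBall 0 r₁) ∧ InjOn β (closedBall 0 r₁) ∧
      (∀ a ∈ closedBall (0 : EuclideanSpace ℝ (Fin u₁)) r₁, φ a ∈ K ∧ ψ (β a) = k (φ a)) ∧
      (∀ b, ‖b‖ ≤ r₂ → ‖b‖ ≤ 2 * dist (ψ b) (k x)) ∧
      ∀ z, SR S₂.g.symm ρ (k x) z → ∃ b, ‖b‖ ≤ r₂ ∧ ψ b = z := by
  obtain ⟨c, hLP⟩ := exists_LP S₁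
  obtain ⟨ρ₁B, hρ₁B, ρB, hρB, hB⟩ := chart_prop S₂.symm u₂ hu₂ 1 one_pos
  have hu : UniformContinuous k := CompactSpace.uniformContinuous_of_continuous H.cont
  rw [Metric.uniformContinuous_iff] at hu
  obtain ⟨η, hη, hηk⟩ := hu ρB hρB
  obtain ⟨r₁, hr₁, ρA, hρA, hA⟩ := chart_prop S₁.symm u₁ hu₁ (min (η / 2) c)
    (lt_min (half_pos hη) hLP.c_pos)
  refine ⟨ρB, hρB, fun x hx => ?_⟩
  obtain ⟨ψ, hψ, hψs⟩ := hB (k x)
  obtain ⟨φ, hφ, -⟩ := hA x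
  have hφr : ∀ a, ‖a‖ ≤ r₁ → SR S₁.g.symm (min (η / 2) c) x (φ a) := fun a ha => hφ.rel a ha
  have hφK : ∀ a, ‖a‖ ≤ r₁ → φ a ∈ K := fun a ha =>
    H.att.sat x hx _ (WS.of_SR (hLP.cU _ _ ((hφr a ha).mono (min_le_right _ _))))
  have hkr : ∀ a, ‖a‖ ≤ r₁ → SR S₂.g.symm ρB (k x) (k (φ a)) := by
    intro a ha n
    rw [← H.iter' hx, ← H.iter' (hφK a ha)]
    have h1 := hφr a ha n
    have h2 : min (η / 2) c ≤ η / 2 := min_le_left _ _
    exact (hηk (by linarith)).le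
  have hex : ∀ a, ‖a‖ ≤ r₁ → ∃ b, ‖b‖ ≤ ρ₁B / 4 ∧ ψ b = k (φ a) := fun a ha =>
    hψs _ (hkr a ha)
  classical
  let β : EuclideanSpace ℝ (Fin u₁) → EuclideanSpace ℝ (Fin u₂) := fun a =>
    if h : ‖a‖ ≤ r₁ then (hex a h).choose else 0
  have hβ : ∀ a, ‖a‖ ≤ r₁ → ‖β a‖ ≤ ρ₁B / 4 ∧ ψ (β a) = k (φ a) := by
    intro a ha
    have h1 : β a = (hex a ha).choose := dif_pos ha
    rw [h1]
    exact (hex a ha).choose_spec
  have hq : ρ₁B / 4 ≤ ρ₁B := by linarith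
  have h00 : ‖(0 : EuclideanSpace ℝ (Fin u₁))‖ ≤ r₁ := by rw [norm_zero]; exact hr₁.le
  refine ⟨r₁, ρ₁B, ψ, φ, β, hr₁, hρ₁B, hψ.zero, ?_, ?_, ?_, ?_, ?_, ?_⟩
  · have h1 := hβ 0 h00
    have h2 := hψ.ge (β 0) 0 (h1.1.trans hq) (by rw [norm_zero]; exact hρ₁B.le)
    rw [h1.2, hφ.zero, hψ.zero, dist_self, mul_zero, sub_zero] at h2
    exact norm_le_zero_iff.mp h2
  · intro a ha
    rw [mem_closedBall_zero_iff] at ha
    have hc : ContinuousWithinAt (fun a => k (φ a)) (closedBall 0 r₁) a :=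
      (H.cont.comp_continuousOn (chart_cont hφ)) a (mem_closedBall_zero_iff.mpr ha)
    rw [Metric.continuousWithinAt_iff] at hc ⊢
    intro e he
    obtain ⟨d, hd, h1⟩ := hc (e / 2) (half_pos he)
    refine ⟨d, hd, fun {b} hb hba => ?_⟩
    have h2 := h1 hb hba
    rw [mem_closedBall_zero_iff] at hb
    have h3 := hψ.ge (β b) (β a) ((hβ b hb).1.trans hq) ((hβ a ha).1.trans hq)
    rw [(hβ b hb).2, (hβ a ha).2] at h3
    rw [dist_eq_norm]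
    linarith
  · intro a ha b hb hab
    rw [mem_closedBall_zero_iff] at ha hb
    have h1 : k (φ a) = k (φ b) := by rw [← (hβ a ha).2, ← (hβ b hb).2, hab]
    have h2 := H.inj (hφK a ha) (hφK b hb) h1
    have h3 := hφ.ge a b ha hb
    rw [h2, dist_self, mul_zero] at h3
    exact sub_eq_zero.mp (norm_le_zero_iff.mp h3)
  · intro a ha
    rw [mem_closedBall_zero_iff] at ha
    exact ⟨hφK a ha, (hβ a ha).2⟩
  · intro b hb
    have h1 := hψ.ge b 0 hb (by rw [norm_zero]; exact hρ₁B.le)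
    rw [hψ.zero, sub_zero] at h1
    exact h1
  · intro z hz
    obtain ⟨b, hb1, hb2⟩ := hψs z hz
    exact ⟨b, hb1.trans hq, hb2⟩

/-- The rank inequality. -/
theorem rank_le (S₁ : HypSys X₁ F₁) (S₂ : HypSys X₂ F₂) {u₁ u₂ : ℕ}
    (hu₁ : ∀ x, Module.finrank ℝ (S₁.Vu x) = u₁) (hu₂ : ∀ x, Module.finrank ℝ (S₂.Vu x) = u₂)
    {K : Set X₁} {k : X₁ → X₂} (H : PSemi S₁.g S₂.g K k) : u₁ ≤ u₂ := by
  obtain ⟨ρ, hρ, h⟩ := chart_rep S₁ S₂ hu₁ hu₂ H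
  obtain ⟨x, hx⟩ := H.att.nonempty
  obtain ⟨r₁, r₂, ψ, φ, β, hr₁, hr₂, -, -, hβc, hβi, -, -, -⟩ := h x hx
  have h1 := Pool.Agent.W964.LieExp.finrank_le_of_injOn (ball (0 : EuclideanSpace ℝ (Fin u₁)) r₁)
    isOpen_ball 0 (mem_ball_self hr₁) β (hβc.mono ball_subset_closedBall)
    (hβi.mono ball_subset_closedBall)
  rwa [finrank_euclideanSpace_fin, finrank_euclideanSpace_fin] at h1

/-- Local openness of the image in unstable plaques. -/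
theorem loc_open (S₁ : HypSys X₁ F₁) (S₂ : HypSys X₂ F₂) {u : ℕ}
    (hu₁ : ∀ x, Module.finrank ℝ (S₁.Vu x) = u) (hu₂ : ∀ x, Module.finrank ℝ (S₂.Vu x) = u)
    {K : Set X₁} {k : X₁ → X₂} (H : PSemi S₁.g S₂.g K k) :
    ∃ ρ > 0, ∀ x ∈ K, ∃ η > 0, ∀ z, SR S₂.g.symm ρ (k x) z → dist z (k x) < η → z ∈ k '' K := by
  obtain ⟨ρ, hρ, h⟩ := chart_rep S₁ S₂ hu₁ hu₂ H
  refine ⟨ρ, hρ, fun x hx => ?_⟩
  obtain ⟨r₁, r₂, ψ, φ, β, hr₁, hr₂, hψ0, hβ0, hβc, hβi, hφK, hge, hs⟩ := h x hx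
  have h1 := Helper514.IoD.image_mem_nhds β 0 r₁ hr₁ hβc hβi
  rw [hβ0] at h1
  obtain ⟨e, he, h2⟩ := Metric.mem_nhds_iff.mp h1
  refine ⟨e / 2, half_pos he, fun z hz hd => ?_⟩
  obtain ⟨b, hb, rfl⟩ := hs z hz
  have h3 := hge b hb
  obtain ⟨a, ha, rfl⟩ := h2 (mem_ball_zero_iff.mpr (show ‖b‖ < e by linarith))
  exact ⟨φ a, (hφK a ha).1, (hφK a ha).2.symm⟩

/-- The image contains unstable plaques. -/
theorem plaque_sub (S₁ : HypSys X₁ F₁) (S₂ : HypSys X₂ F₂) {u : ℕ}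
    (hu₁ : ∀ x, Module.finrank ℝ (S₁.Vu x) = u) (hu₂ : ∀ x, Module.finrank ℝ (S₂.Vu x) = u)
    {K : Set X₁} {k : X₁ → X₂} (H : PSemi S₁.g S₂.g K k) :
    ∃ ρ > 0, ∀ x ∈ K, ∀ z, SR S₂.g.symm ρ (k x) z → z ∈ k '' K := by
  obtain ⟨ρ, hρ, hloc⟩ := loc_open S₁ S₂ hu₁ hu₂ H
  obtain ⟨r, hr, ρ', hρ', hch⟩ := chart_prop S₂.symm u hu₂ (ρ / 2) (half_pos hρ)
  refine ⟨ρ', hρ', fun x hx z hz => ?_⟩
  obtain ⟨ψ, hψ, hψs⟩ := hch (k x)
  have hKc : IsClosed (k '' K) := (H.att.closed.isCompact.image H.cont).isClosed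
  set A : Set (EuclideanSpace ℝ (Fin u)) := closedBall 0 r ∩ ψ ⁻¹' (k '' K) with hA
  have hAcl : IsClosed A := (chart_cont hψ).preimage_isClosed_of_isClosed isClosed_closedBall hKc
  have hrel : ∀ a, ‖a‖ ≤ r → SR S₂.g.symm (ρ / 2) (k x) (ψ a) := fun a ha => hψ.rel a ha
  have hAo : ∀ b ∈ A, ‖b‖ < r → b ∈ interior A := by
    rintro b ⟨hb, x', hx', hxb⟩ hbr
    obtain ⟨η, hη, h1⟩ := hloc x' hx'
    rw [mem_interior_iff_mem_nhds, Metric.mem_nhds_iff]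
    refine ⟨min (r - ‖b‖) (η / 2), lt_min (by linarith) (half_pos hη), fun b' hb' => ?_⟩
    rw [mem_ball, dist_eq_norm] at hb'
    have h2 : ‖b' - b‖ < r - ‖b‖ := hb'.trans_le (min_le_left _ _)
    have h3 : ‖b' - b‖ < η / 2 := hb'.trans_le (min_le_right _ _)
    have hb'r : ‖b'‖ ≤ r := by
      have := norm_le_norm_add_norm_sub' b' b
      linarith
    refine ⟨mem_closedBall_zero_iff.mpr hb'r, h1 _ ?_ ?_⟩
    · intro n
      rw [hxb]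
      have h4 := hrel b hbr.le n
      have h5 := hrel b' hb'r n
      have h6 := dist_triangle_left (S₂.g.symm^[n] (ψ b)) (S₂.g.symm^[n] (ψ b'))
        (S₂.g.symm^[n] (k x))
      linarith
    · rw [hxb]
      have h4 := hψ.le b' b hb'r hbr.le
      linarith
  have hconn : IsPreconnected (ball (0 : EuclideanSpace ℝ (Fin u)) r) :=
    (convex_ball 0 r).isPreconnected
  have hsub : ball (0 : EuclideanSpace ℝ (Fin u)) r ⊆ interior A := by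
    refine hconn.subset_left_of_subset_union isOpen_interior hAcl.isOpen_compl ?_ ?_ ?_
    · rw [Set.disjoint_left]
      exact fun w hw hw' => hw' (interior_subset hw)
    · intro w hw
      by_cases hwA : w ∈ A
      · exact Or.inl (hAo w hwA (by rwa [mem_ball_zero_iff] at hw))
      · exact Or.inr hwA
    · refine ⟨0, mem_ball_self hr, hAo 0 ⟨?_, ?_⟩ (by rwa [norm_zero])⟩
      · rw [mem_closedBall_zero_iff, norm_zero]; exact hr.le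
      · rw [mem_preimage, hψ.zero]; exact ⟨x, hx, rfl⟩
  obtain ⟨b, hb, rfl⟩ := hψs z hz
  exact (interior_subset (hsub (mem_ball_zero_iff.mpr (by linarith)))).2

/-- **The image of an attractor is an attractor.** -/
theorem image_att (S₁ : HypSys X₁ F₁) (S₂ : HypSys X₂ F₂) {u : ℕ}
    (hu₁ : ∀ x, Module.finrank ℝ (S₁.Vu x) = u) (hu₂ : ∀ x, Module.finrank ℝ (S₂.Vu x) = u)
    {K : Set X₁} {k : X₁ → X₂} (H : PSemi S₁.g S₂.g K k) : IsAtt S₂.g (k '' K) := by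
  obtain ⟨ρ, hρ, hpl⟩ := plaque_sub S₁ S₂ hu₁ hu₂ H
  have hinv : ∀ y, S₂.g y ∈ k '' K ↔ y ∈ k '' K := by
    intro y
    constructor
    · rintro ⟨x, hx, hxy⟩
      refine ⟨S₁.g.symm x, (inv_symm H.att.inv x).mpr hx, ?_⟩
      rw [H.comm' hx, hxy, S₂.g.symm_apply_apply]
    · rintro ⟨x, hx, rfl⟩
      exact ⟨S₁.g x, (H.att.inv x).mpr hx, H.comm x hx⟩
  refine ⟨(H.att.closed.isCompact.image H.cont).isClosed, H.att.nonempty.image k, hinv, ?_⟩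
  rintro _ ⟨x, hx, rfl⟩ z hz
  obtain ⟨m, hm⟩ := hz.eventually_lt hρ
  have h1 : SR S₂.g.symm ρ (k (S₁.g.symm^[m] x)) (S₂.g.symm^[m] z) := by
    intro n
    rw [H.iter' hx, ← Function.iterate_add_apply, ← Function.iterate_add_apply]
    exact (hm (n + m) (by omega)).le
  have h2 := hpl _ ((inv_iter (inv_symm H.att.inv) m x).mpr hx) _ h1
  exact (inv_iter (inv_symm hinv) m z).mp h2

/-- A closed invariant set saturated in both directions is open. -/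
theorem open_of_sat {g : X₁ ≃ₜ X₁} {c : ℝ} (h : LP g c) {A : Set X₁} (hA : IsAtt g A)
    (hs : ∀ x ∈ A, ∀ y, WS g x y → y ∈ A) : IsOpen A := by
  obtain ⟨δ, hδ, hlp⟩ := h.lp c h.c_pos
  rw [Metric.isOpen_iff]
  refine fun x hx => ⟨δ, hδ, fun y hy => ?_⟩
  obtain ⟨z, hz1, hz2⟩ := hlp x y (by rw [dist_comm]; exact mem_ball.mp hy)
  have h1 := hs x hx z (WS.of_SR (h.cS _ _ hz1))
  exact hA.sat z h1 y (WS.of_SR (h.cU _ _ hz2)).symm'

/-- Transitive maps have no proper attractors. -/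
theorem univ_of_trans {X : Type*} [MetricSpace X] [CompactSpace X] {g : X ≃ₜ X} {N : ℕ}
    (hN : 1 ≤ N) {c : ℝ} (h : LP (iterHomeo g N) c) (ht : TopTransitive (g : X → X)) {A : Set X}
    (hA : IsAtt (iterHomeo g N) A) (hinv : ∀ x, g x ∈ A ↔ x ∈ A) : A = univ := by
  rw [eq_univ_iff_forall]
  intro y
  by_contra hy
  obtain ⟨r, hr, hball⟩ := Metric.isOpen_iff.mp hA.closed.isOpen_compl y hy
  obtain ⟨η, hη, h1⟩ := T1_unif g N (half_pos hr)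
  obtain ⟨δ, hδ, hlp⟩ := h.lp (min (η / 2) c) (lt_min (half_pos hη) h.c_pos)
  obtain ⟨a, ha⟩ := hA.nonempty
  obtain ⟨n, z, ⟨x, hx, rfl⟩, hz⟩ := ht (ball a δ) (ball y (r / 2)) isOpen_ball
    ⟨a, mem_ball_self hδ⟩ isOpen_ball ⟨y, mem_ball_self (half_pos hr)⟩
  obtain ⟨w, hw1, hw2⟩ := hlp x a (mem_ball.mp hx)
  have hwA : w ∈ A := hA.sat a ha w (WS.of_SR (h.cU _ _ (hw2.mono (min_le_right _ _))))
  have hnn : n = n % N + N * (n / N) := (Nat.mod_add_div n N).symm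
  have h2 := hw1 (n / N)
  rw [iterHomeo_iter, iterHomeo_iter] at h2
  have h3 := h1 (n % N) (Nat.mod_lt _ (by omega)).le _ _
    (h2.trans_lt ((min_le_left _ _).trans_lt (half_lt_self hη)))
  rw [← Function.iterate_add_apply, ← Function.iterate_add_apply, ← hnn] at h3
  have h4 : g^[n] w ∈ A := (inv_iter hinv n w).mpr hwA
  have h5 : g^[n] w ∈ ball y r := by
    rw [mem_ball]
    have h6 := mem_ball.mp hz
    have h7 := dist_triangle_left (g^[n] w) y (g^[n] x)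
    linarith
  exact hball h5 h4

end Pool.Agent.TH289
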